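import Pool.Agent.H25.MF.Targets

/-!
Row GT: the transforms of `gf`.
-/

set_option autoImplicit false

open Complex MeasureTheory Filter Topology

namespace Pool.Agent.H27.MF

open Pool.Agent.H25.MF

/-- Mellin transform in the exponential variable. -/
lemma mellin_sub (f : ℝ → ℂ) (s : ℂ) :
    ∫ y in Set.Ioi (0 : ℝ), f y * (y : ℂ) ^ (s - 1) =
      ∫ v : ℝ, f (Real.exp (-v)) * cexp (-(s * v)) := by
  have h1 : mellin f s = ∫ y in Set.Ioi (0 : ℝ), f y * (y : ℂ) ^ (s - 1) := by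
    unfold mellin
    congr 1
    ext y
    rw [smul_eq_mul, mul_comm]
  rw [← h1, mellin_eq_fourier, Real.fourier_real_eq_integral_exp_smul]
  congr 1
  ext v
  have h2 : cexp (((-2 * Real.pi * v * (s.im / (2 * Real.pi)) : ℝ) : ℂ) * I) *
      ((Real.exp (-s.re * v) : ℝ) : ℂ) = cexp (-(s * v)) := by
    rw [Complex.ofReal_exp, ← Complex.exp_add]
    congr 1
    have h3 : -2 * Real.pi * v * (s.im / (2 * Real.pi)) = -(s.im * v) := by
      have := Real.pi_pos.ne'
      field_simp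
    rw [h3]
    conv_rhs => rw [← Complex.re_add_im s]
    push_cast
    ring
  rw [smul_eq_mul, Complex.real_smul, ← h2]
  ring

lemma gf_mul (z : ℂ) (v : ℝ) : (gf v : ℂ) * cexp (-(z * v)) =
    (M (Real.exp v) : ℂ) * cexp (-((z + 1 / 2) * v)) + 2 * cexp (-((z + 1 / 2) * v)) -
      (R (Real.exp (-v)) : ℂ) * cexp (-((z + 1 / 2) * v)) := by
  have h1 : 1 / Real.exp v = Real.exp (-v) := by rw [Real.exp_neg, one_div]
  have h2 : cexp (-((z + 1 / 2) * v)) = ((Real.exp (-(v / 2)) : ℝ) : ℂ) * cexp (-(z * v)) := by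
    rw [Complex.ofReal_exp, ← Complex.exp_add]
    congr 1
    push_cast
    ring
  unfold gf N
  rw [h1, h2]
  push_cast
  ring

lemma exp_int_Ioi {s : ℂ} (hs : 0 < s.re) :
    IntegrableOn (fun v : ℝ => (2 : ℂ) * cexp (-(s * v))) (Set.Ioi 0) ∧
    ∫ v in Set.Ioi (0 : ℝ), (2 : ℂ) * cexp (-(s * v)) = 2 / s := by
  have h0 : (-s).re < 0 := by rw [Complex.neg_re]; linarith
  have h1 : (fun v : ℝ => (2 : ℂ) * cexp (-(s * v))) = fun v : ℝ => (2 : ℂ) * cexp (-s * v) := by
    ext v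
    rw [neg_mul]
  rw [h1]
  refine ⟨(integrableOn_exp_mul_complex_Ioi h0 0).const_mul 2, ?_⟩
  rw [integral_const_mul, integral_exp_mul_complex_Ioi h0]
  have hs0 : s ≠ 0 := by
    rintro rfl
    simp at hs
  simp
  field_simp

lemma exp_int_Iic {s : ℂ} (hs : s.re < 0) :
    IntegrableOn (fun v : ℝ => (2 : ℂ) * cexp (-(s * v))) (Set.Iic 0) ∧
    ∫ v in Set.Iic (0 : ℝ), (2 : ℂ) * cexp (-(s * v)) = -(2 / s) := by
  have h0 : 0 < (-s).re := by rw [Complex.neg_re]; linarith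
  have h1 : (fun v : ℝ => (2 : ℂ) * cexp (-(s * v))) = fun v : ℝ => (2 : ℂ) * cexp (-s * v) := by
    ext v
    rw [neg_mul]
  rw [h1]
  refine ⟨(integrableOn_exp_mul_complex_Iic h0 0).const_mul 2, ?_⟩
  rw [integral_const_mul, integral_exp_mul_complex_Iic h0]
  have hs0 : s ≠ 0 := by
    rintro rfl
    simp at hs
  simp
  field_simp

theorem pf_GT (hME : T_ME) (hMR : T_MR) (hPS : T_PS) (hRB : T_RB) (hYA : T_YA) : T_GT := by
  constructor
  · intro z hz
    have hre : (z + 1 / 2).re = z.re + 1 / 2 := by simp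
    have hs : 1 < (z + 1 / 2).re := by rw [hre]; linarith
    have hs0 : z + 1 / 2 ≠ 0 := by
      intro h
      rw [h, Complex.zero_re] at hs
      linarith
    have hs1 : z + 1 / 2 ≠ 1 := by
      intro h
      rw [h, Complex.one_re] at hs
      linarith
    obtain ⟨hM1, hM2⟩ := hME (z + 1 / 2) hs
    obtain ⟨hR1, hR2⟩ := hPS.1 (z + 1 / 2) (by linarith)
    obtain ⟨hE1, hE2⟩ := exp_int_Ioi (s := z + 1 / 2) (by linarith)
    simp only [gf_mul]
    have e1 : ∫ v in Set.Ioi (0 : ℝ), ((M (Real.exp v) : ℂ) * cexp (-((z + 1 / 2) * v)) +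
        2 * cexp (-((z + 1 / 2) * v)) - (R (Real.exp (-v)) : ℂ) * cexp (-((z + 1 / 2) * v))) =
        (∫ v in Set.Ioi (0 : ℝ), ((M (Real.exp v) : ℂ) * cexp (-((z + 1 / 2) * v)) +
        2 * cexp (-((z + 1 / 2) * v)))) -
        ∫ v in Set.Ioi (0 : ℝ), (R (Real.exp (-v)) : ℂ) * cexp (-((z + 1 / 2) * v)) :=
      integral_sub (hM1.add hE1) hR1
    have e2 : ∫ v in Set.Ioi (0 : ℝ), ((M (Real.exp v) : ℂ) * cexp (-((z + 1 / 2) * v)) +
        2 * cexp (-((z + 1 / 2) * v))) =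
        (∫ v in Set.Ioi (0 : ℝ), (M (Real.exp v) : ℂ) * cexp (-((z + 1 / 2) * v))) +
        ∫ v in Set.Ioi (0 : ℝ), 2 * cexp (-((z + 1 / 2) * v)) := integral_add hM1 hE1
    rw [e1, e2, hM2, hR2, hE2]
    have h1 : Hf z = (iz (z + 1 / 2) + 2) / (z + 1 / 2) - Pf (z + 1 / 2) := hYA.1 _ hs0
    have h4 : iz (z + 1 / 2) = (riemannZeta (z + 1 / 2))⁻¹ := by
      unfold iz
      rw [if_neg hs1]
    rw [h1, h4]
    have hζ : riemannZeta (z + 1 / 2) ≠ 0 := riemannZeta_ne_zero_of_one_le_re hs.le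
    generalize z + 1 / 2 = s at hs0 hζ
    field_simp
  · intro z hz1 hz2
    have hre : (z + 1 / 2).re = z.re + 1 / 2 := by simp
    have hs1' : (z + 1 / 2).re < -(1 / 8) := by rw [hre]; linarith
    have hs2' : -(1 / 2) < (z + 1 / 2).re := by rw [hre]; linarith
    have hs0 : z + 1 / 2 ≠ 0 := by
      intro h
      rw [h, Complex.zero_re] at hs1'
      linarith
    have hs1 : z + 1 / 2 ≠ 1 := by
      intro h
      rw [h, Complex.one_re] at hs1'
      linarith
    obtain ⟨hE1, hE2⟩ := exp_int_Iic (s := z + 1 / 2) (by linarith)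
    obtain ⟨hR1, hR2⟩ := hPS.1 (z + 1 / 2) (by linarith)
    obtain ⟨-, hMR2⟩ := hMR (z + 1 / 2) (by linarith) hs1'
    have hM0 : ∀ v : ℝ, v < 0 → M (Real.exp v) = 0 := by
      intro v hv
      unfold M
      have h1 : ⌊Real.exp v⌋₊ = 0 := Nat.floor_eq_zero.2 (by rwa [Real.exp_lt_one_iff])
      rw [h1]
      simp
    have hRI : IntegrableOn (fun v : ℝ => (R (Real.exp (-v)) : ℂ) *
        cexp (-((z + 1 / 2) * v))) (Set.Iic 0) := by
      obtain ⟨hcont, ⟨C, hC⟩, -⟩ := hRB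
      have h1 : IntegrableOn (fun v : ℝ => C * Real.exp ((-(1 / 8) - (z + 1 / 2).re) * v))
          (Set.Iic 0) := (integrableOn_exp_mul_Iic (by linarith) 0).const_mul C
      refine Integrable.mono' h1 ?_ (Filter.Eventually.of_forall fun v => ?_)
      · refine Continuous.aestronglyMeasurable ?_
        refine (Complex.continuous_ofReal.comp (hcont.comp (by fun_prop))).mul (by fun_prop)
      · rw [norm_mul, Complex.norm_real, Real.norm_eq_abs]
        have h2 := (hC (Real.exp (-v)) (Real.exp_pos _)).1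
        rw [← Real.exp_mul] at h2
        have h3 : ‖cexp (-((z + 1 / 2) * v))‖ = Real.exp (-((z + 1 / 2).re * v)) := by
          rw [Complex.norm_exp]
          congr 1
          rw [Complex.neg_re, Complex.re_mul_ofReal]
        rw [h3]
        calc |R (Real.exp (-v))| * Real.exp (-((z + 1 / 2).re * v))
            ≤ C * Real.exp (-v * (1 / 8)) * Real.exp (-((z + 1 / 2).re * v)) := by gcongr
          _ = C * Real.exp ((-(1 / 8) - (z + 1 / 2).re) * v) := by
            rw [mul_assoc, ← Real.exp_add]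
            congr 2
            ring
    have hall : ∫ v : ℝ, (R (Real.exp (-v)) : ℂ) * cexp (-((z + 1 / 2) * v)) =
        1 / ((z + 1 / 2) * riemannZeta (z + 1 / 2)) := by
      rw [← hMR2]
      exact (mellin_sub (fun y => (R y : ℂ)) (z + 1 / 2)).symm
    have hsplit := intervalIntegral.integral_Iic_add_Ioi hRI hR1
    rw [hall, hR2] at hsplit
    have hcong : ∫ v in Set.Iio (0 : ℝ), (gf v : ℂ) * cexp (-(z * v)) =
        ∫ v in Set.Iic (0 : ℝ), ((2 : ℂ) * cexp (-((z + 1 / 2) * v)) -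
          (R (Real.exp (-v)) : ℂ) * cexp (-((z + 1 / 2) * v))) := by
      rw [integral_Iic_eq_integral_Iio]
      refine setIntegral_congr_fun measurableSet_Iio fun v hv => ?_
      rw [gf_mul, hM0 v hv]
      push_cast
      ring
    rw [hcong, integral_sub hE1 hRI, hE2]
    have h1 : Hf z = (iz (z + 1 / 2) + 2) / (z + 1 / 2) - Pf (z + 1 / 2) := hYA.1 _ hs0
    have h4 : iz (z + 1 / 2) = (riemannZeta (z + 1 / 2))⁻¹ := by
      unfold iz
      rw [if_neg hs1]
    rw [h1, h4]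
    have h5 : ∫ v in Set.Iic (0 : ℝ), (R (Real.exp (-v)) : ℂ) * cexp (-((z + 1 / 2) * v)) =
        1 / ((z + 1 / 2) * riemannZeta (z + 1 / 2)) - Pf (z + 1 / 2) := by
      linear_combination hsplit
    rw [h5]
    generalize z + 1 / 2 = s
    rw [one_div, mul_inv]
    ring

end Pool.Agent.H27.MF
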