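import Pool.Agent.H25.MF.Targets

/-!
Row HG: continuation of the transform to the right half plane.
-/

set_option autoImplicit false

open Complex MeasureTheory Filter Topology

namespace Pool.Agent.H27.MF

open Pool.Agent.H25.MF

/-- `(s - 1) ζ(s)` with the value `1` at `1`. -/
noncomputable def Z1 : ℂ → ℂ := Function.update (fun s : ℂ => (s - 1) * riemannZeta s) 1 1

lemma Z1_of_ne {s : ℂ} (h : s ≠ 1) : Z1 s = (s - 1) * riemannZeta s := by
  unfold Z1
  rw [Function.update_of_ne h]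

lemma Z1_one : Z1 1 = 1 := Function.update_self _ _ _

lemma Z1_analytic (s : ℂ) : AnalyticAt ℂ Z1 s := by
  have hd : ∀ s : ℂ, s ≠ 1 → DifferentiableAt ℂ Z1 s := by
    intro s hs
    have h1 : DifferentiableAt ℂ (fun s : ℂ => (s - 1) * riemannZeta s) s :=
      (differentiableAt_id.sub_const 1).mul (differentiableAt_riemannZeta hs)
    refine h1.congr_of_eventuallyEq ?_
    filter_upwards [isOpen_ne.mem_nhds hs] with u hu
    exact Z1_of_ne hu
  rcases eq_or_ne s 1 with rfl | hs
  · refine Complex.analyticAt_of_differentiable_on_punctured_nhds_of_continuousAt ?_ ?_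
    · filter_upwards [self_mem_nhdsWithin] with u hu
      exact hd u hu
    · rw [← continuousWithinAt_compl_self]
      have h1 := riemannZeta_residue_one
      have h2 : Tendsto Z1 (𝓝[≠] 1) (𝓝 1) := by
        refine h1.congr' ?_
        filter_upwards [self_mem_nhdsWithin] with u hu
        exact (Z1_of_ne hu).symm
      unfold ContinuousWithinAt
      rw [Z1_one]
      exact h2
  · refine DifferentiableOn.analyticAt (s := {u : ℂ | u ≠ 1}) ?_ (isOpen_ne.mem_nhds hs)
    intro u hu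
    exact (hd u hu).differentiableWithinAt

theorem pf_HG (hYA : T_YA) (hPS : T_PS) : T_HG := by
  intro G hG hGH
  set E : ℂ → ℂ := fun z => ((z + 1 / 2) * (G z + Pf (z + 1 / 2)) - 2) * Z1 (z + 1 / 2) -
    (z + 1 / 2 - 1) with hE
  have hre : ∀ z : ℂ, (z + 1 / 2).re = z.re + 1 / 2 := by
    intro z
    simp
  have hopen : IsOpen {z : ℂ | 0 < z.re} := isOpen_lt continuous_const Complex.continuous_re
  have hGan : ∀ z : ℂ, 0 < z.re → AnalyticAt ℂ G z := by
    intro z hz
    refine DifferentiableOn.analyticAt (s := {z : ℂ | 0 < z.re}) ?_ (hopen.mem_nhds hz)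
    intro u hu
    exact (hG u hu).differentiableWithinAt
  have hsh : ∀ z : ℂ, AnalyticAt ℂ (fun z : ℂ => z + 1 / 2) z := fun z =>
    analyticAt_id.add analyticAt_const
  have hEan : AnalyticOnNhd ℂ E {z : ℂ | 0 < z.re} := by
    intro z hz
    have hz' : 0 < z.re := hz
    have h1 : AnalyticAt ℂ (fun z : ℂ => Pf (z + 1 / 2)) z :=
      AnalyticAt.comp (hPS.2.1 _ (by rw [hre]; linarith)) (hsh z)
    have h2 : AnalyticAt ℂ (fun z : ℂ => Z1 (z + 1 / 2)) z :=
      AnalyticAt.comp (Z1_analytic _) (hsh z)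
    exact ((((hsh z).mul ((hGan z hz').add h1)).sub analyticAt_const).mul h2).sub
      ((hsh z).sub analyticAt_const)
  have hconv : IsPreconnected {z : ℂ | 0 < z.re} :=
    (convex_halfSpace_re_gt 0).isPreconnected
  have hloc : ∀ z : ℂ, 5 / 8 < z.re → z.re < 1 → E z = 0 := by
    intro z h1 h2
    have hs1 : z + 1 / 2 ≠ 1 := by
      intro h
      have := congrArg Complex.re h
      rw [hre, Complex.one_re] at this
      linarith
    have hs0 : z + 1 / 2 ≠ 0 := by
      intro h
      have := congrArg Complex.re h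
      rw [hre, Complex.zero_re] at this
      linarith
    have hζ : riemannZeta (z + 1 / 2) ≠ 0 :=
      riemannZeta_ne_zero_of_one_le_re (by rw [hre]; linarith)
    have h3 : G z = (iz (z + 1 / 2) + 2) / (z + 1 / 2) - Pf (z + 1 / 2) := by
      rw [hGH z h1 h2]
      exact hYA.1 _ hs0
    have h4 : iz (z + 1 / 2) = (riemannZeta (z + 1 / 2))⁻¹ := by
      unfold iz
      rw [if_neg hs1]
    show ((z + 1 / 2) * (G z + Pf (z + 1 / 2)) - 2) * Z1 (z + 1 / 2) - (z + 1 / 2 - 1) = 0
    rw [h3, h4, Z1_of_ne hs1]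
    generalize z + 1 / 2 = s at hs1 hs0 hζ
    field_simp
    ring
  have hz₀ : (((3 / 4 : ℝ) : ℂ)) ∈ {z : ℂ | 0 < z.re} := by
    simp
  have hev : E =ᶠ[𝓝 ((3 / 4 : ℝ) : ℂ)] 0 := by
    have ho : IsOpen {z : ℂ | 5 / 8 < z.re ∧ z.re < 1} :=
      (isOpen_lt continuous_const Complex.continuous_re).inter
        (isOpen_lt Complex.continuous_re continuous_const)
    have hm : ((3 / 4 : ℝ) : ℂ) ∈ {z : ℂ | 5 / 8 < z.re ∧ z.re < 1} := by
      constructor
      · rw [Complex.ofReal_re]; norm_num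
      · rw [Complex.ofReal_re]; norm_num
    filter_upwards [ho.mem_nhds hm] with z hz
    exact hloc z hz.1 hz.2
  have hzero : ∀ z : ℂ, 0 < z.re → E z = 0 := fun z hz =>
    hEan.eqOn_zero_of_preconnected_of_eventuallyEq_zero hconv hz₀ hev hz
  have hNZR : NZR := by
    intro s hs hs1 h0
    have h1 := hzero (s - 1 / 2) (by
      have : (s - 1 / 2).re = s.re - 1 / 2 := by simp
      rw [this]; linarith)
    have h2 : s - 1 / 2 + 1 / 2 = s := by ring
    have h3 : (s * (G (s - 1 / 2) + Pf s) - 2) * Z1 s - (s - 1) = 0 := by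
      have h4 : ((s - 1 / 2 + 1 / 2) * (G (s - 1 / 2) + Pf (s - 1 / 2 + 1 / 2)) - 2) *
        Z1 (s - 1 / 2 + 1 / 2) - (s - 1 / 2 + 1 / 2 - 1) = 0 := h1
      rwa [h2] at h4
    rw [Z1_of_ne hs1, h0, mul_zero, mul_zero, zero_sub, neg_eq_zero] at h3
    exact hs1 (sub_eq_zero.1 h3)
  refine ⟨hNZR, fun z hz => ?_⟩
  have hs0 : z + 1 / 2 ≠ 0 := by
    intro h
    have := congrArg Complex.re h
    rw [hre, Complex.zero_re] at this
    linarith
  have h1 : ((z + 1 / 2) * (G z + Pf (z + 1 / 2)) - 2) * Z1 (z + 1 / 2) - (z + 1 / 2 - 1) = 0 :=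
    hzero z hz
  have h2 : Hf z = (iz (z + 1 / 2) + 2) / (z + 1 / 2) - Pf (z + 1 / 2) := hYA.1 _ hs0
  rw [h2]
  rcases eq_or_ne (z + 1 / 2) 1 with hs1 | hs1
  · rw [hs1] at h1 ⊢
    rw [Z1_one] at h1
    have h3 : iz 1 = 0 := by
      unfold iz
      rw [if_pos rfl]
    rw [h3]
    linear_combination h1
  · have hζ : riemannZeta (z + 1 / 2) ≠ 0 := hNZR _ (by rw [hre]; linarith) hs1
    have h4 : iz (z + 1 / 2) = (riemannZeta (z + 1 / 2))⁻¹ := by
      unfold iz
      rw [if_neg hs1]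
    rw [h4]
    rw [Z1_of_ne hs1] at h1
    generalize z + 1 / 2 = s at hs1 hs0 hζ h1
    have hs1' : s - 1 ≠ 0 := sub_ne_zero.2 hs1
    have h5 : (s * (G z + Pf s) - 2) * riemannZeta s = 1 := by
      have h6 : (s - 1) * ((s * (G z + Pf s) - 2) * riemannZeta s - 1) = 0 := by
        linear_combination h1
      rcases mul_eq_zero.1 h6 with h | h
      · exact absurd h hs1'
      · exact sub_eq_zero.1 h
    field_simp
    linear_combination h5

end Pool.Agent.H27.MF
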