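import Pool.Agent.H25.MF.Targets

/-!
Row KE: a nonnegative kernel whose Fourier transform has compact support.
-/

set_option autoImplicit false

open Complex MeasureTheory Filter Topology FourierTransform Convolution SchwartzMap

namespace Pool.Agent.H27.MF

open Pool.Agent.H25.MF

/-- A bump function. -/
noncomputable def bmp : ContDiffBump (0 : ℝ) where
  rIn := 1 / (8 * Real.pi)
  rOut := 1 / (4 * Real.pi)
  rIn_pos := by positivity
  rIn_lt_rOut := by
    have : 0 < Real.pi := Real.pi_pos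
    rw [one_div_lt_one_div (by positivity) (by positivity)]
    linarith

/-- The bump function as a Schwartz function. -/
noncomputable def ph : 𝓢(ℝ, ℂ) :=
  HasCompactSupport.toSchwartzMap (f := fun x : ℝ => ((bmp x : ℝ) : ℂ))
    (bmp.hasCompactSupport.comp_left Complex.ofReal_zero)
    (Complex.ofRealCLM.contDiff.comp bmp.contDiff)

lemma ph_apply (x : ℝ) : ph x = ((bmp x : ℝ) : ℂ) := rfl

/-- The convolution square. -/
noncomputable def ps : 𝓢(ℝ, ℂ) := SchwartzMap.convolution (ContinuousLinearMap.mul ℂ ℂ) ph ph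

lemma ps_zero {x : ℝ} (hx : 1 / (2 * Real.pi) ≤ |x|) : ps x = 0 := by
  have h1 : ps x = (ph ⋆[ContinuousLinearMap.mul ℂ ℂ] ph) x :=
    SchwartzMap.convolution_apply _ _ _ _
  rw [h1, convolution_def]
  have h2 : ∀ t : ℝ, (ContinuousLinearMap.mul ℂ ℂ (ph t)) (ph (x - t)) = 0 := by
    intro t
    rw [ContinuousLinearMap.mul_apply', ph_apply, ph_apply]
    have h3 : bmp.rOut ≤ |t| ∨ bmp.rOut ≤ |x - t| := by
      by_contra hc
      push Not at hc
      have h4 : |x| ≤ |t| + |x - t| := by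
        have := abs_add_le t (x - t)
        rwa [add_sub_cancel] at this
      have h5 : bmp.rOut = 1 / (4 * Real.pi) := rfl
      have h6 : 1 / (2 * Real.pi) = 1 / (4 * Real.pi) + 1 / (4 * Real.pi) := by
        field_simp
        norm_num
      rw [h5] at hc
      linarith [hc.1, hc.2]
    rcases h3 with h3 | h3
    · rw [bmp.zero_of_le_dist (by simpa using h3)]
      simp
    · rw [bmp.zero_of_le_dist (x := x - t) (by simpa using h3)]
      simp
  simp only [h2, integral_zero]

lemma four_ps (x : ℝ) : 𝓕 ps x = 𝓕 ph x * 𝓕 ph x := by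
  unfold ps
  rw [SchwartzMap.fourier_convolution]
  rfl

lemma four_ph_real (x : ℝ) : (starRingEnd ℂ) (𝓕 ph x) = 𝓕 ph x := by
  have h0 : 𝓕 ph x = ∫ v : ℝ, cexp (↑(-2 * Real.pi * v * x) * I) • ph v := by
    rw [SchwartzMap.fourier_coe, Real.fourier_real_eq_integral_exp_smul]
  rw [h0, ← integral_conj, ← integral_neg_eq_self]
  congr 1
  ext v
  rw [smul_eq_mul, smul_eq_mul, map_mul, ph_apply, ph_apply, bmp.neg, Complex.conj_ofReal,
    ← Complex.exp_conj, map_mul, Complex.conj_ofReal, Complex.conj_I]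
  congr 2
  push_cast
  ring

/-- The real Fourier transform. -/
noncomputable def qq (x : ℝ) : ℝ := (𝓕 ph x).re

lemma qq_eq (x : ℝ) : (qq x : ℂ) = 𝓕 ph x := Complex.conj_eq_iff_re.1 (four_ph_real x)

lemma qq_sq (x : ℝ) : ((qq x ^ 2 : ℝ) : ℂ) = 𝓕 ps x := by
  rw [four_ps, ← qq_eq]
  push_cast
  ring

lemma qq_cont : Continuous qq := Complex.continuous_re.comp (𝓕 ph).continuous

lemma qq_norm (x : ℝ) : ‖𝓕 ps x‖ = qq x ^ 2 := by
  rw [← qq_sq, Complex.norm_real, Real.norm_eq_abs, abs_of_nonneg (sq_nonneg _)]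

lemma qq_int : Integrable (fun x => qq x ^ 2) := by
  have h := (𝓕 ps).integrable (μ := volume).norm
  refine h.congr (Filter.Eventually.of_forall fun x => ?_)
  exact qq_norm x

lemma qq_mom : Integrable (fun x => |x| * qq x ^ 2) := by
  have h := (𝓕 ps).integrable_pow_mul volume 1
  refine h.congr (Filter.Eventually.of_forall fun x => ?_)
  show ‖x‖ ^ 1 * ‖𝓕 ps x‖ = |x| * qq x ^ 2
  rw [qq_norm, pow_one, Real.norm_eq_abs]

lemma qq_ne : ∃ x, qq x ≠ 0 := by
  by_contra hc
  push Not at hc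
  have h1 : 𝓕 ph = 0 := by
    ext x
    rw [← qq_eq, hc]
    simp
  have h2 : ph = 0 := by
    have h3 : 𝓕⁻ (𝓕 ph) = ph := FourierTransform.fourierInv_fourier_eq ph
    rw [← h3, h1]
    exact FourierTransform.fourierInv_zero
  have h4 : ph 0 = 1 := by
    rw [ph_apply, bmp.one_of_mem_closedBall (Metric.mem_closedBall_self bmp.rIn_pos.le)]
    simp
  rw [h2] at h4
  simp at h4

/-- The total mass. -/
noncomputable def cc : ℝ := ∫ x, qq x ^ 2

lemma cc_pos : 0 < cc := by
  obtain ⟨x, hx⟩ := qq_ne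
  exact integral_pos_of_integrable_nonneg_nonzero (qq_cont.pow 2) qq_int
    (fun x => sq_nonneg _) (x := x) (pow_ne_zero 2 hx)

lemma four_four (s : ℝ) : 𝓕 (𝓕 ps) s = ps (-s) := by
  have h1 : 𝓕⁻ (𝓕 ps) (-s) = ps (-s) := by
    rw [FourierTransform.fourierInv_fourier_eq ps]
  rw [← h1, SchwartzMap.fourierInv_coe, Real.fourierInv_eq_fourier_neg, neg_neg,
    SchwartzMap.fourier_coe]

theorem pf_KE : T_KE := by
  refine ⟨fun v => cc⁻¹ * qq v ^ 2, fun t => (cc⁻¹ : ℂ) * ps (-(t / (2 * Real.pi))), ?_⟩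
  refine ⟨?_, ?_, ?_, ?_, ?_, ?_, ?_, ?_⟩
  · exact continuous_const.mul (qq_cont.pow 2)
  · intro v
    have := cc_pos
    positivity
  · exact qq_int.const_mul _
  · rw [integral_const_mul]
    exact inv_mul_cancel₀ cc_pos.ne'
  · refine (qq_mom.const_mul cc⁻¹).congr (Filter.Eventually.of_forall fun x => ?_)
    show cc⁻¹ * (|x| * qq x ^ 2) = |x| * (cc⁻¹ * qq x ^ 2)
    ring
  · refine continuous_const.mul (ps.continuous.comp ?_)
    exact (continuous_id.div_const _).neg
  · intro t ht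
    show (cc⁻¹ : ℂ) * ps (-(t / (2 * Real.pi))) = 0
    rw [ps_zero, mul_zero]
    rw [abs_neg, abs_div, abs_of_pos (by positivity : (0 : ℝ) < 2 * Real.pi)]
    gcongr
  · intro t
    have h1 : ps (-(t / (2 * Real.pi))) =
        ∫ v : ℝ, cexp (↑(-2 * Real.pi * v * (t / (2 * Real.pi))) * I) • 𝓕 ps v := by
      rw [← four_four, SchwartzMap.fourier_coe, Real.fourier_real_eq_integral_exp_smul]
    show _ = (cc⁻¹ : ℂ) * ps (-(t / (2 * Real.pi)))
    rw [h1, ← integral_const_mul]
    congr 1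
    ext v
    rw [smul_eq_mul, ← qq_sq]
    have h2 : ((-2 * Real.pi * v * (t / (2 * Real.pi)) : ℝ) : ℂ) * I = -(t * v * I) := by
      have h3 : -2 * Real.pi * v * (t / (2 * Real.pi)) = -(t * v) := by
        have := Real.pi_pos.ne'
        field_simp
      rw [h3]
      push_cast
      ring
    rw [h2]
    push_cast
    ring

end Pool.Agent.H27.MF
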