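import Pool.Agent.H25.MF.Targets

/-!
Row TF: exchange of the integrals.
-/

set_option autoImplicit false

open Complex MeasureTheory Filter Topology

namespace Pool.Agent.H27.MF

open Pool.Agent.H25.MF

/-- Powers are absorbed by Gaussians. -/
lemma pow_gauss (b : ℝ) (hb : 0 < b) (k : ℕ) : ∃ D : ℝ, 0 ≤ D ∧ ∀ t : ℝ,
    (1 + |t|) ^ k * Real.exp (-(b * t ^ 2)) ≤ D * Real.exp (-(b / 2 * t ^ 2)) := by
  refine ⟨(k.factorial : ℝ) * Real.exp (1 + 1 / (2 * b)), by positivity, fun t => ?_⟩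
  have h1 : (1 + |t|) ^ k ≤ (k.factorial : ℝ) * Real.exp (1 + |t|) := by
    have h := Real.pow_div_factorial_le_exp (x := 1 + |t|) (by positivity) k
    have hk : (0 : ℝ) < k.factorial := by positivity
    rw [div_le_iff₀ hk] at h
    linarith
  have h2 : |t| ≤ 1 / (2 * b) + b / 2 * t ^ 2 := by
    have h3 : 0 ≤ (b * |t| - 1) ^ 2 := sq_nonneg _
    have h4 : |t| ^ 2 = t ^ 2 := sq_abs t
    have h5 : 1 / (2 * b) + b / 2 * t ^ 2 - |t| = (b * |t| - 1) ^ 2 / (2 * b) := by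
      field_simp
      rw [← h4]
      ring
    have h6 : 0 ≤ (b * |t| - 1) ^ 2 / (2 * b) := by positivity
    linarith
  calc (1 + |t|) ^ k * Real.exp (-(b * t ^ 2))
      ≤ (k.factorial : ℝ) * Real.exp (1 + |t|) * Real.exp (-(b * t ^ 2)) := by gcongr
    _ = (k.factorial : ℝ) * Real.exp (1 + |t| - b * t ^ 2) := by
        rw [mul_assoc, ← Real.exp_add]; ring_nf
    _ ≤ (k.factorial : ℝ) * Real.exp (1 + 1 / (2 * b) + -(b / 2 * t ^ 2)) := by
        gcongr
        linarith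
    _ = _ := by rw [Real.exp_add, mul_assoc]

/-- The line `Re z = δ` is in the domain of continuity. -/
lemma line_cont {H : ℂ → ℂ} (hD : Df H) {δ : ℝ} (h0 : 0 < |δ|) (h1 : |δ| ≤ 3 / 4) :
    Continuous (fun t : ℝ => H (δ + t * I)) := by
  rw [continuous_iff_continuousAt]
  intro t
  have h2 : ((δ : ℂ) + t * I).re = δ := by simp
  have h3 : ContinuousAt H ((δ : ℂ) + t * I) :=
    (hD _ (by rw [h2]; exact h0) (by rw [h2]; linarith)).continuousAt
  exact ContinuousAt.comp (f := fun t : ℝ => (δ : ℂ) + t * I) h3 (by fun_prop)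

/-- The norm of the Gaussian factor. -/
lemma norm_gauss (τ δ t : ℝ) :
    ‖cexp ((τ : ℂ) ^ 2 * ((δ : ℂ) + t * I) ^ 2 / 2)‖ =
      Real.exp (τ ^ 2 * δ ^ 2 / 2) * Real.exp (-(τ ^ 2 / 2 * t ^ 2)) := by
  rw [Complex.norm_exp, ← Real.exp_add]
  congr 1
  have h : (τ : ℂ) ^ 2 * ((δ : ℂ) + t * I) ^ 2 / 2 =
      ((τ ^ 2 * (δ ^ 2 - t ^ 2) / 2 : ℝ) : ℂ) + ((τ ^ 2 * δ * t : ℝ) : ℂ) * I := by
    have := Complex.I_sq
    push_cast
    linear_combination ((τ : ℂ) ^ 2 * t ^ 2 / 2) * this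
  rw [h, Complex.add_re, Complex.ofReal_re, Complex.re_ofReal_mul, Complex.I_re]
  ring

/-- Integrability on the line. -/
lemma line_int {H : ℂ → ℂ} (hD : Df H) (hB : Bd H) {τ δ : ℝ} (hτ : 0 < τ) (h0 : 0 < |δ|)
    (h1 : |δ| ≤ 3 / 4) :
    Integrable (fun t : ℝ => H (δ + t * I) * cexp ((τ : ℂ) ^ 2 * ((δ : ℂ) + t * I) ^ 2 / 2)) := by
  obtain ⟨C, k, hC⟩ := hB
  obtain ⟨D, hD0, hDb⟩ := pow_gauss (τ ^ 2 / 2) (by positivity) k
  have hC0 : 0 ≤ C := by
    have h2 := hC (δ : ℂ) (by simpa using h0) (by simpa using h1)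
    have h3 : 0 ≤ C * (1 + |((δ : ℂ)).im|) ^ k / |((δ : ℂ)).re| := (norm_nonneg _).trans h2
    simp only [Complex.ofReal_im, abs_zero, add_zero, one_pow, mul_one, Complex.ofReal_re] at h3
    by_contra hc
    push Not at hc
    exact absurd h3 (not_le.2 (div_neg_of_neg_of_pos hc h0))
  have hg : Integrable (fun t : ℝ => C / |δ| * Real.exp (τ ^ 2 * δ ^ 2 / 2) * D *
      Real.exp (-(τ ^ 2 / 2 / 2) * t ^ 2)) :=
    (integrable_exp_neg_mul_sq (by positivity)).const_mul _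
  refine hg.mono' ?_ (Filter.Eventually.of_forall fun t => ?_)
  · refine ((line_cont hD h0 h1).mul ?_).aestronglyMeasurable
    fun_prop
  · rw [norm_mul, norm_gauss]
    have h2 : ((δ : ℂ) + t * I).re = δ := by simp
    have h3 : ((δ : ℂ) + t * I).im = t := by simp
    have h4 := hC ((δ : ℂ) + t * I) (by rw [h2]; exact h0) (by rw [h2]; exact h1)
    rw [h2, h3] at h4
    have h5 := hDb t
    calc ‖H ((δ : ℂ) + t * I)‖ * (Real.exp (τ ^ 2 * δ ^ 2 / 2) * Real.exp (-(τ ^ 2 / 2 * t ^ 2)))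
        ≤ C * (1 + |t|) ^ k / |δ| *
          (Real.exp (τ ^ 2 * δ ^ 2 / 2) * Real.exp (-(τ ^ 2 / 2 * t ^ 2))) := by gcongr
      _ = C / |δ| * Real.exp (τ ^ 2 * δ ^ 2 / 2) *
          ((1 + |t|) ^ k * Real.exp (-(τ ^ 2 / 2 * t ^ 2))) := by ring
      _ ≤ C / |δ| * Real.exp (τ ^ 2 * δ ^ 2 / 2) *
          (D * Real.exp (-(τ ^ 2 / 2 / 2 * t ^ 2))) := by gcongr
      _ = _ := by rw [neg_mul]; ring

theorem pf_TF : T_TF := by
  intro H hD hB τ δ v₀ T K Kh hτ h0 h1 hK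
  set A : ℝ → ℂ := fun t => H (δ + t * I) * cexp ((τ : ℂ) ^ 2 * ((δ : ℂ) + t * I) ^ 2 / 2) with hA
  have hAi : Integrable A := line_int hD hB hτ h0 h1
  have hrep : ∀ v : ℝ, rep H τ δ v * cexp (-(δ * v)) * K (v₀ - v) =
      (2 * Real.pi : ℂ)⁻¹ * ∫ t : ℝ, A t * cexp (t * v * I) * K (v₀ - v) := by
    intro v
    unfold rep
    rw [mul_assoc, mul_assoc, ← integral_mul_const]
    congr 2
    ext t
    rw [hA]
    have h2 : cexp (((δ : ℂ) + t * I) * v + (τ : ℂ) ^ 2 * ((δ : ℂ) + t * I) ^ 2 / 2) *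
        cexp (-(δ * v)) = cexp ((τ : ℂ) ^ 2 * ((δ : ℂ) + t * I) ^ 2 / 2) * cexp (t * v * I) := by
      rw [← Complex.exp_add, ← Complex.exp_add]
      congr 1
      ring
    linear_combination (H ((δ : ℂ) + t * I) * (K (v₀ - v) : ℂ)) * h2
  unfold lft rgt
  simp only [hrep]
  rw [integral_const_mul]
  congr 1
  have hKi : Integrable (fun v : ℝ => ((K (v₀ - v) : ℝ) : ℂ)) :=
    (hK.int.comp_sub_left v₀).ofReal
  have hprod : Integrable (Function.uncurry fun (v t : ℝ) =>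
      A t * cexp (t * v * I) * ((K (v₀ - v) : ℝ) : ℂ)) (volume.prod volume) := by
    have h2 := hKi.mul_prod hAi
    refine h2.mono ?_ (Filter.Eventually.of_forall fun p => ?_)
    · have h3 : (Function.uncurry fun (v t : ℝ) =>
          A t * cexp (t * v * I) * ((K (v₀ - v) : ℝ) : ℂ)) =
          fun p : ℝ × ℝ => (((K (v₀ - p.1) : ℝ) : ℂ) * A p.2) * cexp (p.2 * p.1 * I) := by
        ext p
        simp only [Function.uncurry]
        ring
      rw [h3]
      refine h2.aestronglyMeasurable.mul ?_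
      exact (by fun_prop : Continuous fun p : ℝ × ℝ =>
        cexp (p.2 * p.1 * I)).aestronglyMeasurable
    · simp only [Function.uncurry]
      have h4 : ‖cexp ((p.2 : ℂ) * p.1 * I)‖ = 1 := by
        have := Complex.norm_exp_ofReal_mul_I (p.2 * p.1)
        push_cast at this
        exact this
      rw [norm_mul (A p.2 * _) _, norm_mul (A p.2) _, h4, mul_one, mul_comm]
      exact (norm_mul _ _).symm.le
  rw [integral_integral_swap hprod]
  congr 1
  ext t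
  have h5 : ∀ v : ℝ, A t * cexp (t * v * I) * ((K (v₀ - v) : ℝ) : ℂ) =
      A t * (cexp (t * v * I) * ((K (v₀ - v) : ℝ) : ℂ)) := fun v => by ring
  simp only [h5]
  rw [integral_const_mul]
  have h6 : ∫ v : ℝ, cexp (t * v * I) * ((K (v₀ - v) : ℝ) : ℂ) =
      cexp (t * v₀ * I) * Kh t := by
    rw [← hK.ft t, ← integral_const_mul,
      ← integral_sub_left_eq_self (fun v : ℝ => cexp (t * v * I) * ((K (v₀ - v) : ℝ) : ℂ))
        volume v₀]
    congr 1
    ext u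
    rw [sub_sub_cancel]
    have h7 : cexp ((t : ℂ) * ((v₀ - u : ℝ) : ℂ) * I) =
        cexp (t * v₀ * I) * cexp (-(t * u * I)) := by
      rw [← Complex.exp_add]
      congr 1
      push_cast
      ring
    rw [h7]
    ring
  rw [h6]
  ring

end Pool.Agent.H27.MF
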