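import Pool.Agent.H25.MF.Targets

/-!
Row LO: local structure near the critical line.
-/

set_option autoImplicit false

open Complex MeasureTheory Filter Topology

namespace Pool.Agent.H27.MF

open Pool.Agent.H25.MF

/-- A meromorphic function with at most a simple pole, seen horizontally. -/
lemma mero_local {f : ℂ → ℂ} {z0 : ℂ} (hf : MeromorphicAt f z0) {C : ℝ}
    (hb : ∀ᶠ x : ℝ in 𝓝[>] 0, ‖f (z0 + x)‖ ≤ C / x) :
    ∃ (a : ℂ) (B : ℝ), ∀ᶠ z in 𝓝[≠] z0, ‖f z - a / (z - z0)‖ ≤ B := by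
  rcases h : meromorphicOrderAt f z0 with _ | n
  · have h1 := meromorphicOrderAt_eq_top_iff.1 h
    refine ⟨0, 0, ?_⟩
    filter_upwards [h1] with z hz
    rw [hz]
    simp
  · obtain ⟨g, hg, hg0, hfg⟩ := (meromorphicOrderAt_eq_int_iff hf).1 h
    -- the order is at least `-1`
    have hpath : Tendsto (fun x : ℝ => z0 + (x : ℂ)) (𝓝[>] 0) (𝓝[≠] z0) := by
      refine tendsto_nhdsWithin_iff.2 ⟨?_, ?_⟩
      · have : Tendsto (fun x : ℝ => z0 + (x : ℂ)) (𝓝 0) (𝓝 (z0 + ((0 : ℝ) : ℂ))) :=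
          (by fun_prop : Continuous fun x : ℝ => z0 + (x : ℂ)).tendsto 0
        rw [Complex.ofReal_zero, add_zero] at this
        exact this.mono_left nhdsWithin_le_nhds
      · filter_upwards [self_mem_nhdsWithin] with x hx
        have hx' : (0 : ℝ) < x := hx
        intro h0
        have h1 : z0 + (x : ℂ) = z0 := h0
        have h2 : (x : ℂ) = 0 := by
          have := congrArg (fun u => u - z0) h1
          simpa using this
        exact hx'.ne' (Complex.ofReal_eq_zero.1 h2)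
    have hn : -1 ≤ n := by
      by_contra hn
      push Not at hn
      have h1 : n + 1 ≤ -1 := by omega
      have h2 : ∀ᶠ x : ℝ in 𝓝[>] 0, ‖g z0‖ / 2 ≤ ‖g (z0 + x)‖ := by
        have h3 : Tendsto (fun x : ℝ => ‖g (z0 + x)‖) (𝓝[>] 0) (𝓝 ‖g z0‖) :=
          (hg.continuousAt.tendsto.mono_left nhdsWithin_le_nhds).norm.comp hpath
        have h4 : ‖g z0‖ / 2 < ‖g z0‖ := by
          have : 0 < ‖g z0‖ := norm_pos_iff.2 hg0
          linarith
        exact (h3.eventually (lt_mem_nhds h4)).mono fun x hx => hx.le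
      have h5 : ∀ᶠ x : ℝ in 𝓝[>] 0, x < ‖g z0‖ / 2 / (|C| + 1) := by
        refine nhdsWithin_le_nhds (Iio_mem_nhds ?_)
        have : 0 < ‖g z0‖ := norm_pos_iff.2 hg0
        positivity
      have h6 : ∀ᶠ x : ℝ in 𝓝[>] 0, x < 1 := nhdsWithin_le_nhds (Iio_mem_nhds one_pos)
      have h7 : ∀ᶠ x : ℝ in 𝓝[>] 0, (0 : ℝ) < x := self_mem_nhdsWithin
      obtain ⟨x, hx1, hx2, hx3, hx4, hx5, hx6⟩ :=
        (hb.and (h2.and (h5.and (h6.and (h7.and (hpath.eventually hfg)))))).exists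
      rw [hx6, add_sub_cancel_left, norm_smul, norm_zpow, Complex.norm_real, Real.norm_eq_abs,
        abs_of_pos hx5] at hx1
      have h8 : x ^ n * (‖g z0‖ / 2) ≤ C / x := by
        refine le_trans ?_ hx1
        gcongr
      have h9 : x ^ (n + 1) * (‖g z0‖ / 2) ≤ C := by
        have := mul_le_mul_of_nonneg_right h8 hx5.le
        rw [div_mul_cancel₀ _ hx5.ne'] at this
        calc x ^ (n + 1) * (‖g z0‖ / 2) = x ^ n * (‖g z0‖ / 2) * x := by
              rw [zpow_add_one₀ hx5.ne']; ring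
          _ ≤ C := this
      have h10 : x ^ (-1 : ℤ) ≤ x ^ (n + 1) := zpow_le_zpow_right_of_le_one₀ hx5 hx4.le h1
      have h11 : x⁻¹ * (‖g z0‖ / 2) ≤ |C| + 1 := by
        rw [zpow_neg_one] at h10
        calc x⁻¹ * (‖g z0‖ / 2) ≤ x ^ (n + 1) * (‖g z0‖ / 2) := by gcongr
          _ ≤ C := h9
          _ ≤ |C| + 1 := by linarith [le_abs_self C]
      have h12 : (0 : ℝ) < |C| + 1 := by positivity
      rw [lt_div_iff₀ h12] at hx3
      rw [inv_mul_le_iff₀ hx5] at h11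
      linarith
    obtain ⟨m, hm⟩ := Int.eq_ofNat_of_zero_le (show 0 ≤ n + 1 by omega)
    set hh : ℂ → ℂ := fun z => (z - z0) ^ m * g z with hhdef
    have hhan : AnalyticAt ℂ hh z0 := ((analyticAt_id.sub analyticAt_const).pow m).mul hg
    have hcont : ContinuousAt (dslope hh z0) z0 :=
      continuousAt_dslope_same.2 hhan.differentiableAt
    refine ⟨hh z0, ‖dslope hh z0 z0‖ + 1, ?_⟩
    have hb2 : ∀ᶠ z in 𝓝 z0, ‖dslope hh z0 z‖ < ‖dslope hh z0 z0‖ + 1 :=
      hcont.norm.eventually (gt_mem_nhds (lt_add_one _))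
    filter_upwards [hfg, nhdsWithin_le_nhds hb2, self_mem_nhdsWithin] with z hz1 hz2 hz3
    have hz3' : z ≠ z0 := hz3
    have hz0 : z - z0 ≠ 0 := sub_ne_zero.2 hz3'
    have h1 : f z = (z - z0)⁻¹ * hh z := by
      rw [hz1, smul_eq_mul, hhdef]
      have h2 : (z - z0) ^ n = (z - z0)⁻¹ * (z - z0) ^ m := by
        have h3 : n = -1 + (m : ℤ) := by omega
        rw [h3, zpow_add₀ hz0, zpow_neg_one, zpow_natCast]
      rw [h2]
      ring
    have h2 : f z - hh z0 / (z - z0) = dslope hh z0 z := by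
      rw [dslope_of_ne _ hz3', slope_def_field, h1]
      field_simp
    rw [h2]
    exact hz2.le

lemma iz_of_ne {s : ℂ} (hs : s ≠ 1) : iz s = (riemannZeta s)⁻¹ := by
  unfold iz
  rw [if_neg hs]

lemma hf_mero (hYA : T_YA) (hPS : T_PS) (t : ℝ) : MeromorphicAt Hf (t * I) := by
  have hre : ((t : ℂ) * I + 1 / 2).re = 1 / 2 := by simp
  have hs0 : (t : ℂ) * I + 1 / 2 ≠ 0 := by
    intro h
    rw [h, Complex.zero_re] at hre
    norm_num at hre
  have hs1 : (t : ℂ) * I + 1 / 2 ≠ 1 := by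
    intro h
    rw [h, Complex.one_re] at hre
    norm_num at hre
  have hsh : AnalyticAt ℂ (fun z : ℂ => z + 1 / 2) ((t : ℂ) * I) :=
    analyticAt_id.add analyticAt_const
  have hζ : AnalyticAt ℂ riemannZeta ((t : ℂ) * I + 1 / 2) := by
    refine DifferentiableOn.analyticAt (s := {u : ℂ | u ≠ 1}) ?_ (isOpen_ne.mem_nhds hs1)
    intro u hu
    exact (differentiableAt_riemannZeta hu).differentiableWithinAt
  have h1 : MeromorphicAt (fun z : ℂ => riemannZeta (z + 1 / 2)) ((t : ℂ) * I) :=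
    (AnalyticAt.comp (g := riemannZeta) (f := fun z : ℂ => z + 1 / 2) hζ hsh).meromorphicAt
  have h2 : MeromorphicAt (fun z : ℂ => Pf (z + 1 / 2)) ((t : ℂ) * I) :=
    (AnalyticAt.comp (g := Pf) (f := fun z : ℂ => z + 1 / 2) (hPS.2.1 _ (by rw [hre]; norm_num)) hsh).meromorphicAt
  have h3 : MeromorphicAt (fun z : ℂ => ((riemannZeta (z + 1 / 2))⁻¹ + 2) / (z + 1 / 2) -
      Pf (z + 1 / 2)) ((t : ℂ) * I) :=
    ((h1.inv.add (MeromorphicAt.const 2 _)).div hsh.meromorphicAt).sub h2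
  refine h3.congr ?_
  have hc : ContinuousAt (fun z : ℂ => z + 1 / 2) ((t : ℂ) * I) := hsh.continuousAt
  have h4 : ∀ᶠ z in 𝓝 ((t : ℂ) * I), z + 1 / 2 ≠ 0 ∧ z + 1 / 2 ≠ 1 :=
    (hc.eventually (isOpen_ne.mem_nhds hs0)).and (hc.eventually (isOpen_ne.mem_nhds hs1))
  filter_upwards [nhdsWithin_le_nhds h4] with z hz
  have h5 : Hf z = (iz (z + 1 / 2) + 2) / (z + 1 / 2) - Pf (z + 1 / 2) := hYA.1 _ hz.1
  rw [h5, iz_of_ne hz.2]

theorem pf_LO (hYA : T_YA) (hPS : T_PS) : T_LO := by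
  intro _ hBd T
  obtain ⟨C, k, hC⟩ := hBd
  have hcI : Continuous (fun t : ℝ => (t : ℂ) * I) := by fun_prop
  -- local description
  have hloc : ∀ t : ℝ, ∃ (a : ℂ) (B : ℝ), ∀ᶠ z in 𝓝[≠] ((t : ℂ) * I),
      ‖Hf z - a / (z - t * I)‖ ≤ B := by
    intro t
    refine mero_local (hf_mero hYA hPS t) (C := C * (1 + |t|) ^ k) ?_
    have h1 : ∀ᶠ x : ℝ in 𝓝[>] 0, x < 3 / 4 :=
      nhdsWithin_le_nhds (Iio_mem_nhds (by norm_num))
    filter_upwards [h1, self_mem_nhdsWithin] with x hx1 hx2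
    have hx2' : (0 : ℝ) < x := hx2
    have hr : ((t : ℂ) * I + x).re = x := by simp
    have hi : ((t : ℂ) * I + x).im = t := by simp
    have h2 := hC ((t : ℂ) * I + x) (by rw [hr, abs_of_pos hx2']; exact hx2')
      (by rw [hr, abs_of_pos hx2']; exact hx1.le)
    rwa [hr, hi, abs_of_pos hx2'] at h2
  choose a B haB using hloc
  -- the finite set
  have hfin : {t : ℝ | t ∈ Set.Icc (-T) T ∧ ¬ AnalyticAt ℂ Hf ((t : ℂ) * I)}.Finite := by
    refine IsCompact.induction_on (isCompact_Icc (a := -T) (b := T))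
      (p := fun A => {t : ℝ | t ∈ A ∧ ¬ AnalyticAt ℂ Hf ((t : ℂ) * I)}.Finite) ?_ ?_ ?_ ?_
    · simp
    · intro A A' hAA' h
      exact h.subset fun t ht => ⟨hAA' ht.1, ht.2⟩
    · intro A A' h h'
      refine (h.union h').subset ?_
      rintro t ⟨ht | ht, h2⟩
      · exact Or.inl ⟨ht, h2⟩
      · exact Or.inr ⟨ht, h2⟩
    · intro t _
      have h1 := (hf_mero hYA hPS t).eventually_analyticAt
      have h2 : Tendsto (fun u : ℝ => (u : ℂ) * I) (𝓝[≠] t) (𝓝[≠] ((t : ℂ) * I)) := by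
        refine tendsto_nhdsWithin_iff.2 ⟨hcI.continuousAt.tendsto.mono_left nhdsWithin_le_nhds, ?_⟩
        filter_upwards [self_mem_nhdsWithin] with u hu
        intro h3
        have h4 : (u : ℂ) * I = t * I := h3
        have h5 : (u : ℂ) = t := mul_right_cancel₀ Complex.I_ne_zero h4
        exact hu (Complex.ofReal_injective h5)
      have h3 := h2.eventually h1
      rw [eventually_nhdsWithin_iff] at h3
      refine ⟨{u : ℝ | u ∈ ({t}ᶜ : Set ℝ) → AnalyticAt ℂ Hf ((u : ℂ) * I)},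
        nhdsWithin_le_nhds h3, ?_⟩
      refine (Set.finite_singleton t).subset ?_
      rintro u ⟨hu1, hu2⟩
      by_contra hu3
      exact hu2 (hu1 hu3)
  set S : Finset ℝ := hfin.toFinset with hS
  have hSmem : ∀ t : ℝ, t ∈ S ↔ t ∈ Set.Icc (-T) T ∧ ¬ AnalyticAt ℂ Hf ((t : ℂ) * I) := by
    intro t
    rw [hS, Set.Finite.mem_toFinset]
    rfl
  -- the global bound
  have hglob : ∃ δ : ℝ, 0 < δ ∧ ∃ D : ℝ, ∀ z : ℂ, 0 < |z.re| → |z.re| < δ →
      z.im ∈ Set.Icc (-T) T → ‖Hf z - ∑ γ ∈ S, a γ / (z - γ * I)‖ ≤ D := by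
    refine IsCompact.induction_on (isCompact_Icc (a := -T) (b := T))
      (p := fun A => ∃ δ : ℝ, 0 < δ ∧ ∃ D : ℝ, ∀ z : ℂ, 0 < |z.re| → |z.re| < δ →
      z.im ∈ A → ‖Hf z - ∑ γ ∈ S, a γ / (z - γ * I)‖ ≤ D) ?_ ?_ ?_ ?_
    · exact ⟨1, one_pos, 0, fun z _ _ h => absurd h (Set.notMem_empty _)⟩
    · rintro A A' hAA' ⟨δ, hδ, D, hD⟩
      exact ⟨δ, hδ, D, fun z h1 h2 h3 => hD z h1 h2 (hAA' h3)⟩
    · rintro A A' ⟨δ, hδ, D, hD⟩ ⟨δ', hδ', D', hD'⟩
      refine ⟨min δ δ', lt_min hδ hδ', max D D', ?_⟩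
      rintro z h1 h2 (h3 | h3)
      · exact (hD z h1 (h2.trans_le (min_le_left _ _)) h3).trans (le_max_left _ _)
      · exact (hD' z h1 (h2.trans_le (min_le_right _ _)) h3).trans (le_max_right _ _)
    · intro t ht
      -- a bound in a punctured neighbourhood of `it`
      have hnear : ∃ D : ℝ, ∀ᶠ z in 𝓝[≠] ((t : ℂ) * I),
          ‖Hf z - ∑ γ ∈ S, a γ / (z - γ * I)‖ ≤ D := by
        have hother : ∀ S' : Finset ℝ, t ∉ S' → ∃ D : ℝ, ∀ᶠ z in 𝓝 ((t : ℂ) * I),
            ‖∑ γ ∈ S', a γ / (z - γ * I)‖ ≤ D := by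
          intro S' hS'
          have hc : ContinuousAt (fun z : ℂ => ∑ γ ∈ S', a γ / (z - γ * I)) ((t : ℂ) * I) := by
            refine tendsto_finsetSum _ fun γ hγ => ?_
            refine ContinuousAt.div continuousAt_const (continuousAt_id.sub continuousAt_const) ?_
            intro h0
            have h1 : (t : ℂ) * I = γ * I := sub_eq_zero.1 h0
            have h2 : (t : ℂ) = γ := mul_right_cancel₀ Complex.I_ne_zero h1
            exact hS' (Complex.ofReal_injective h2 ▸ hγ)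
          exact ⟨_, (hc.norm.eventually (gt_mem_nhds (lt_add_one _))).mono fun z hz => hz.le⟩
        by_cases htS : t ∈ S
        · obtain ⟨D, hD⟩ := hother (S.erase t) (Finset.notMem_erase t S)
          refine ⟨B t + D, ?_⟩
          filter_upwards [haB t, nhdsWithin_le_nhds hD] with z h1 h2
          rw [← Finset.add_sum_erase S _ htS]
          calc ‖Hf z - (a t / (z - t * I) + ∑ γ ∈ S.erase t, a γ / (z - γ * I))‖
              = ‖(Hf z - a t / (z - t * I)) - ∑ γ ∈ S.erase t, a γ / (z - γ * I)‖ := by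
                congr 1; ring
            _ ≤ ‖Hf z - a t / (z - t * I)‖ + ‖∑ γ ∈ S.erase t, a γ / (z - γ * I)‖ :=
                norm_sub_le _ _
            _ ≤ B t + D := add_le_add h1 h2
        · obtain ⟨D, hD⟩ := hother S htS
          have hcont : ContinuousAt Hf ((t : ℂ) * I) := by
            by_contra hc
            exact htS ((hSmem t).2 ⟨ht, fun han => hc han.continuousAt⟩)
          have h3 := hcont.norm.eventually (gt_mem_nhds (lt_add_one _))
          refine ⟨‖Hf ((t : ℂ) * I)‖ + 1 + D, ?_⟩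
          filter_upwards [nhdsWithin_le_nhds h3, nhdsWithin_le_nhds hD] with z h1 h2
          exact (norm_sub_le _ _).trans (add_le_add h1.le h2)
      obtain ⟨D, hD⟩ := hnear
      rw [eventually_nhdsWithin_iff, Metric.eventually_nhds_iff] at hD
      obtain ⟨r, hr, hD⟩ := hD
      refine ⟨Metric.ball t (r / 2), mem_nhdsWithin_of_mem_nhds (Metric.ball_mem_nhds t (by positivity)),
        r / 2, by positivity, D, fun z h1 h2 h3 => ?_⟩
      have h4 : dist z ((t : ℂ) * I) < r := by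
        rw [Metric.mem_ball, Real.dist_eq] at h3
        rw [Complex.dist_eq]
        calc ‖z - t * I‖ ≤ |(z - t * I).re| + |(z - t * I).im| := Complex.norm_le_abs_re_add_abs_im _
          _ = |z.re| + |z.im - t| := by simp
          _ < r := by linarith
      refine hD h4 ?_
      intro h5
      have h6 : z = (t : ℂ) * I := h5
      rw [h6] at h1
      simp at h1
  obtain ⟨δ, hδ, D, hD⟩ := hglob
  refine ⟨S, a, δ, D, hδ, fun z h1 h2 h3 => hD z h1 h2 (abs_le.1 h3), fun t ht htS => ?_⟩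
  by_contra hc
  exact htS ((hSmem t).2 ⟨abs_le.1 ht, fun han => hc han.continuousAt⟩)

end Pool.Agent.H27.MF
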